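import Pool.Agent.Y499.HC.ProjRound
import Pool.Agent.Y502.HC.Frame
import Pool.Agent.Y888.HC.Det
import Pool.Agent.Y331.HC.Pos
import Pool.Agent.Y64.HC.Ptw
import Pool.Agent.Y454.HC.Avge
import Pool.Agent.Y908.HC.Inv2

/-! # The optimal systolic ratio of the metrics on `RP^(d+1)` in Fermi coordinates of a hyperplane

Let `d ≥ 2`. The projective space `RP^(d+1)` without a point is the quotient of `(-L, L) × S^d` by
`(s, x) ↦ (-s, -x)`. Among all metrics `ds² + k(s, x)² g_round`, where `L > 0` and `k` is an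
arbitrary positive continuous function of both variables, the least systolic ratio is that of the
standard metric (`L = π/2`, `k = cos s`), whose systole is `π`. -/

set_option autoImplicit false

open Real Set MeasureTheory Metric
open scoped ENNReal

namespace Pool.Agent.Results.MP_c3a607_gt.FermiProjective

open Pool.Agent.Y499.HC Pool.Agent.Y499.HR Pool.Agent.Y499.HP

theorem result (d : ℕ) (hd : 2 ≤ d) :
    (sysK d (π / 2) fun s _ => Real.cos s) = ENNReal.ofReal π ∧
    IsLeast {x : ℝ≥0∞ | ∃ (L : ℝ) (k : ℝ → EuclideanSpace ℝ (Fin (d + 1)) → ℝ), 0 < L ∧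
        IsSlice d L k ∧ x = projVol d L k / sysK d L k ^ (d + 1)}
      (hemiCollar d (π / 2) / ENNReal.ofReal π ^ (d + 1)) := by
  have hF := Pool.Agent.Y502.HC.t_FRAME
  have hP := Pool.Agent.Y64.HC.t_PTW
  have hA := Pool.Agent.Y454.HC.t_AVGE
  have hI := Pool.Agent.Y908.HC.t_INV2
  have hO := Pool.Agent.Y331.HC.t_POS
  have hD := Pool.Agent.Y888.HC.t_DET
  exact ⟨sysK_cos, proj_least hF hP hA hI hO hD hd⟩

end Pool.Agent.Results.MP_c3a607_gt.FermiProjective
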